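import Pool.Agent.TH233.LS.Loc

set_option autoImplicit false

open Set Filter Topology Metric

namespace Pool.Agent.TH233.LS

lemma lam_comb (k : ℕ) (i : Fin 3) (x y : ℂ) (a b : ℝ) (h : a + b = 1) :
    lam k i (a • x + b • y) = a * lam k i x + b * lam k i y := by
  unfold lam
  split_ifs
  · rw [f_comb k x y a b h]; ring
  · ring

lemma locConv_transfer {k : ℕ} {i : Fin 3} {y : ℂ} (hy : y ∈ W) (h : LocConv Val y) :
    LocConv Val (phi k i y) := by
  obtain ⟨K, F, hKo, hKc, hF, hev⟩ := h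
  have hconv : Convex ℝ (psi k i ⁻¹' K) := by
    intro x hx z hz a b ha hb hab
    show psi k i (a • x + b • z) ∈ K
    rw [psi_comb k i x z a b hab]
    exact hKc hx hz ha hb hab
  refine ⟨psi k i ⁻¹' K, fun x => lam k i x + F (psi k i x) / 2,
    hKo.preimage (continuous_psi k i), hconv, ⟨hconv, ?_⟩, ?_⟩
  · intro x hx z hz a b ha hb hab
    have h1 := hF.2 hx hz ha hb hab
    simp only [smul_eq_mul] at h1 ⊢
    rw [psi_comb k i x z a b hab, lam_comb k i x z a b hab]
    linarith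
  · have h1 : Tendsto (psi k i) (𝓝 (phi k i y)) (𝓝 y) := by
      have := (continuous_psi k i).tendsto (phi k i y)
      rwa [psi_phi] at this
    filter_upwards [h1.eventually hev, (isOpen_SB k i).mem_nhds (phi_mem_SB hy)] with x hx1 hx2 a
    rw [val_SB hx2]
    constructor
    · rintro ⟨b, hb, rfl⟩
      obtain ⟨h3, h4⟩ := (hx1 b).1 hb
      exact ⟨h3, by rw [h4]⟩
    · rintro ⟨h3, h4⟩
      exact ⟨F (psi k i x), (hx1 _).2 ⟨h3, rfl⟩, h4⟩

/-- near a point of none of the cores nothing is decorated -/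
lemma val_near {x : ℂ} (hx : x ≠ 0) (hc : ∀ k i, x ∉ CB k i) :
    ∀ᶠ y in 𝓝 x, ∀ a, Val y a ↔ Base y a := by
  have h1 : ∀ i : Fin 3, ∀ᶠ y in 𝓝 x, ∀ k, True → y ∉ CB k i := fun i =>
    locfin hx (fun k => CB k i) (fun k => isClosed_CB k i)
      (fun k => (CB_sub k i).trans (SB_Zn k i)) _ fun k _ => hc k i
  have h2 : ∀ᶠ y in 𝓝 x, ∀ i : Fin 3, ∀ k, True → y ∉ CB k i := Filter.eventually_all.2 h1
  filter_upwards [h2] with y hy a
  exact val_iff_base fun k i => hy i k trivial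

lemma locConv_of_base {x : ℂ} (hx : x ≠ 0) (hc : ∀ k i, x ∉ CB k i) : LocConv Val x := by
  obtain ⟨K, F, h1, h2, h3, h4⟩ := base_locConv hx hc
  refine ⟨K, F, h1, h2, h3, ?_⟩
  filter_upwards [h4, val_near hx hc] with y h5 h6 a
  rw [h6, h5]

lemma locConv_main {x : ℂ} (hM : x ∈ M) : LocConv Val x := by
  rcases hM with hM | hM
  · refine ⟨K1, fun _ => 0, isOpen_K1, convex_K1, concaveOn_const 0 convex_K1, ?_⟩
    filter_upwards [(Complex.continuous_re.tendsto x).eventually_lt_const hM] with y hy a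
    constructor
    · intro h
      exact ⟨⟨val_W h, hy⟩, val_main h (Or.inl hy)⟩
    · rintro ⟨⟨h, -⟩, rfl⟩
      exact Val.base (Base.main y h (Or.inl hy))
  · refine ⟨K2, fun _ => 0, isOpen_K2, convex_K2, concaveOn_const 0 convex_K2, ?_⟩
    filter_upwards [(Complex.continuous_im.tendsto x).eventually_lt_const hM] with y hy a
    constructor
    · intro h
      exact ⟨⟨val_W h, hy⟩, val_main h (Or.inr hy)⟩
    · rintro ⟨⟨h, -⟩, rfl⟩
      exact Val.base (Base.main y h (Or.inr hy))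

lemma locConv_of_val {x : ℂ} {a : ℝ} (h : Val x a) : LocConv Val x := by
  induction h with
  | @base x a h =>
    by_cases hS : ∃ k i, x ∈ SB k i
    · obtain ⟨k, i, hS⟩ := hS
      have h1 := ((base_SB hS).1 h).1
      have h2 : psi k i x ∈ W := (mem_SB_iff k i x).1 hS
      have := locConv_transfer (k := k) (i := i) h2 (locConv_main h1)
      rwa [phi_psi] at this
    · push Not at hS
      apply locConv_of_base
      · rintro rfl
        rw [base_iff] at h
        rcases h with ⟨-, hM, -⟩ | ⟨k, ⟨hk, -⟩ | ⟨hk, -⟩⟩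
        · rcases hM with hM | hM <;> simp at hM
        · have := hk.2.2.1
          have := e_pos k
          simp only [Complex.zero_im] at *
          linarith
        · have := hk.2.2.1
          have := e_pos k
          simp only [Complex.zero_im] at *
          linarith
      · intro k i hC
        exact hS k i (CB_sub k i hC)
  | sub k i hy hb ih => exact locConv_transfer hy ih

lemma norm_of_sq {x y : ℂ} {r : ℝ} (hr : 0 ≤ r) (h : x.re ^ 2 + x.im ^ 2 = r ^ 2 * (y.re ^ 2 + y.im ^ 2)) :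
    ‖x‖ = r * ‖y‖ := by
  have h1 : ‖x‖ ^ 2 = (r * ‖y‖) ^ 2 := by
    rw [mul_pow, Complex.sq_norm, Complex.sq_norm, Complex.normSq_apply, Complex.normSq_apply]
    linarith
  exact (pow_left_inj₀ (norm_nonneg _) (by positivity) two_ne_zero).1 h1

lemma dist_phi (k : ℕ) (i : Fin 3) (y z : ℂ) : dist (phi k i y) (phi k i z) = e k * dist y z := by
  rw [dist_eq_norm, dist_eq_norm]
  apply norm_of_sq (e_pos k).le
  have h1 := sg_sq i
  have h2 := tg_sq i
  simp only [phi, Complex.sub_re, Complex.sub_im]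
  linear_combination (e k ^ 2 * (y.re - z.re) ^ 2) * h1 + (e k ^ 2 * (y.im - z.im) ^ 2) * h2

lemma dist_psi (k : ℕ) (i : Fin 3) (x z : ℂ) : e k * dist (psi k i x) (psi k i z) = dist x z := by
  rw [← dist_phi k i, phi_psi, phi_psi]

lemma f_lip (k : ℕ) (x y : ℂ) : |f k x - f k y| ≤ 9 / 8 * dist x y := by
  have h1 := Complex.abs_re_le_norm (x - y)
  have h2 := Complex.abs_im_le_norm (x - y)
  rw [← dist_eq_norm] at h1 h2
  rw [Complex.sub_re] at h1
  rw [Complex.sub_im] at h2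
  have h3 : f k x - f k y = (x.im - y.im) - (x.re - y.re) / 8 := by unfold f; ring
  rw [h3]
  rw [abs_le] at *
  constructor <;> linarith [h1.1, h1.2, h2.1, h2.2]

lemma lam_lip (k : ℕ) (i : Fin 3) (x y : ℂ) : |lam k i x - lam k i y| ≤ c k * (9 / 8) * dist x y := by
  unfold lam
  split_ifs
  · rw [← mul_sub, abs_mul, abs_of_pos (c_pos k), mul_assoc]
    exact mul_le_mul_of_nonneg_left (f_lip k x y) (c_pos k).le
  · rw [sub_zero, abs_zero]
    have := c_pos k
    positivity

lemma ce_le (k : ℕ) : c k * (9 / 8) * e k ≤ 1 / 80 := by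
  have h := c_mul k (9 / 8)
  have h2 := half_pow_le k
  nlinarith

lemma lam_lip' (k : ℕ) (i : Fin 3) (y z : ℂ) :
    |lam k i (phi k i y) - lam k i (phi k i z)| ≤ 1 / 80 * dist y z := by
  refine (lam_lip k i _ _).trans ?_
  rw [dist_phi, ← mul_assoc]
  exact mul_le_mul_of_nonneg_right (ce_le k) dist_nonneg

/-- the function has spikes near `x` that are very high compared with their distance to `x` -/
def Peak (x : ℂ) : Prop := ∀ K : ℝ, ∀ ε > 0, ∃ x' a', Val x' a' ∧ x' ≠ x ∧ dist x' x < ε ∧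
  ∃ r > 0, ∀ y b, Val y b → dist y x < r → b + K * dist x' x ≤ a'

/-- the top points of the tentacles -/
noncomputable def top (k : ℕ) : ℂ :=
  ⟨(124 + (1 / 2 : ℝ) ^ k) * e k, (1152 - (1 / 2 : ℝ) ^ k) * e k⟩

lemma top_Q (k : ℕ) : top k ∈ Q k := by
  have h1 := half_pow_le k
  have h2 : (0 : ℝ) < (1 / 2) ^ k := by positivity
  have h3 := e_pos k
  refine ⟨?_, ?_, ?_, ?_⟩ <;> simp only [top] <;> nlinarith

lemma top_val (k : ℕ) : Val (top k) (c k * f k (top k)) := Val.base (Base.ver k _ (top_Q k))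

lemma top_ge (k : ℕ) : 1 + (1 / 2 : ℝ) ^ k * (23 / 100) ≤ c k * f k (top k) := by
  have h1 := half_pow_le k
  have h2 : (0 : ℝ) < (1 / 2) ^ k := by positivity
  have h3 : f k (top k) = (237 / 2 - 9 / 8 * (1 / 2 : ℝ) ^ k) * e k := by
    unfold f top
    ring
  rw [h3, c_mul]
  nlinarith

lemma top_dist (k : ℕ) {x : ℂ} (hx : x ∈ Zn k) : dist (top k) x ≤ 5000 * e k := by
  have h1 := half_pow_le k
  have h2 : (0 : ℝ) < (1 / 2) ^ k := by positivity
  have h3 := e_pos k
  obtain ⟨h4, h5⟩ := hx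
  rw [abs_le] at h4 h5
  rw [dist_eq_norm]
  refine (Complex.norm_le_abs_re_add_abs_im _).trans ?_
  have e1 : |(top k - x).re| ≤ 2500 * e k := by
    rw [Complex.sub_re, abs_le]
    simp only [top]
    constructor <;> nlinarith
  have e2 : |(top k - x).im| ≤ 2500 * e k := by
    rw [Complex.sub_im, abs_le]
    simp only [top]
    constructor <;> nlinarith
  linarith

lemma top_dist' (k : ℕ) {i : Fin 3} {x : ℂ} (hx : x ∈ SB k i) : dist (top k) x ≤ 300 * e k := by
  have h1 := half_pow_le k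
  have h2 : (0 : ℝ) < (1 / 2) ^ k := by positivity
  have h3 := e_pos k
  obtain ⟨h4, h5⟩ := SB_re hx
  obtain ⟨h6, h7⟩ := SB_im hx
  rw [dist_eq_norm]
  refine (Complex.norm_le_abs_re_add_abs_im _).trans ?_
  have e1 : |(top k - x).re| ≤ 130 * e k := by
    rw [Complex.sub_re, abs_le]
    simp only [top]
    constructor <;> nlinarith
  have e2 : |(top k - x).im| ≤ 135 * e k := by
    rw [Complex.sub_im, abs_le]
    simp only [top]
    constructor <;> nlinarith
  linarith

lemma val_near_zero {y : ℂ} {b : ℝ} (h : Val y b) (m : ℕ) (hy : dist y 0 < e m) :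
    b ≤ 1 + (1 / 4) * (1 / 2 : ℝ) ^ m := by
  have h2 : (0 : ℝ) < (1 / 2) ^ m := by positivity
  rcases h with h | ⟨k, i, hz, hb⟩
  · rcases h with ⟨_, h1, h2⟩ | ⟨k, _, h⟩ | ⟨k, _, h⟩
    · positivity
    · exact (min_le_left _ _).trans (by positivity)
    · refine (cf_ub h).trans ?_
      have hkm : m ≤ k := by
        by_contra hc
        push Not at hc
        have h3 := e_lt hc
        have h4 := h.2.2.1
        have h5 := Complex.abs_im_le_norm y
        rw [dist_zero_right] at hy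
        have h6 := le_abs_self y.im
        have := e_pos k
        have := e_pos m
        linarith
      have h3 : (1 / 2 : ℝ) ^ k ≤ (1 / 2) ^ m := pow_le_pow_of_le_one (by norm_num) (by norm_num) hkm
      linarith
  · have := val_SB_le (k := k) (i := i) hz hb
    linarith

lemma zero_Zn (k : ℕ) : (0 : ℂ) ∈ Zn k := by
  have := e_pos k
  refine ⟨?_, ?_⟩ <;> simp [this.le]

lemma e_le_pow (k : ℕ) : 5000 * e k ≤ 2 * (1 / 4 : ℝ) ^ k := by
  unfold e
  rw [pow_succ]
  have : (0 : ℝ) < (1 / 4) ^ k := by positivity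
  nlinarith

lemma peak_zero : Peak 0 := by
  intro K ε hε
  have h1 : Tendsto (fun k : ℕ => 2 * (|K| + 1) * (1 / 2 : ℝ) ^ k) atTop (𝓝 (2 * (|K| + 1) * 0)) :=
    (tendsto_pow_atTop_nhds_zero_of_lt_one (by norm_num) (by norm_num)).const_mul _
  rw [mul_zero] at h1
  obtain ⟨k, hk1, hk2⟩ := ((h1.eventually_lt_const (show (0 : ℝ) < min ε (1 / 10) by positivity)).and
    (eventually_ge_atTop 0)).exists
  have hk3 : 2 * (|K| + 1) * (1 / 2 : ℝ) ^ k < ε := lt_of_lt_of_le hk1 (min_le_left _ _)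
  have hk4 : 2 * (|K| + 1) * (1 / 2 : ℝ) ^ k < 1 / 10 := lt_of_lt_of_le hk1 (min_le_right _ _)
  have hK := abs_nonneg K
  have hd : dist (top k) 0 ≤ 2 * (1 / 4 : ℝ) ^ k := (top_dist k (zero_Zn k)).trans (e_le_pow k)
  have hp : (0 : ℝ) < (1 / 2) ^ k := by positivity
  have h14 : (1 / 4 : ℝ) ^ k = (1 / 2) ^ k * (1 / 2) ^ k := by
    rw [← mul_pow]; norm_num
  have h2 := half_pow_le k
  refine ⟨top k, _, top_val k, ?_, ?_, e (k + 2), e_pos _, ?_⟩
  · intro h0
    have := congrArg Complex.im h0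
    simp only [top, Complex.zero_im] at this
    have := e_pos k
    nlinarith
  · rw [h14] at hd
    nlinarith
  · intro y b hb hy
    have h3 := val_near_zero hb (k + 2) hy
    have h4 := top_ge k
    have h5 : (1 / 2 : ℝ) ^ (k + 2) = (1 / 2) ^ k / 4 := by rw [pow_add]; ring
    rw [h5] at h3
    have h6 : K * dist (top k) 0 ≤ (1 / 2) ^ k * (1 / 10) := by
      calc K * dist (top k) 0 ≤ |K| * (2 * (1 / 4 : ℝ) ^ k) :=
            mul_le_mul (le_abs_self K) hd dist_nonneg hK
        _ ≤ (1 / 2) ^ k * (1 / 10) := by rw [h14]; nlinarith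
    linarith

lemma peak_transfer {k : ℕ} {i : Fin 3} {y : ℂ} (hy : y ∈ W) (h : Peak y) : Peak (phi k i y) := by
  intro K ε hε
  have he := e_pos k
  have he1 := e_le k
  obtain ⟨x', a', h1, h2, h3, r, hr, h4⟩ := h (2 * (K * e k + 1 / 40)) ε hε
  have hD : 0 < dist x' y := dist_pos.2 h2
  obtain ⟨ρ, hρ, hball⟩ := Metric.isOpen_iff.1 (isOpen_SB k i) _ (phi_mem_SB (k := k) (i := i) hy)
  refine ⟨phi k i x', lam k i (phi k i x') + a' / 2, Val.sub k i (val_W h1) h1, ?_, ?_,
    min ρ (e k * min r (dist x' y)), by positivity, ?_⟩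
  · intro h5
    apply h2
    have := congrArg (psi k i) h5
    rwa [psi_phi, psi_phi] at this
  · rw [dist_phi]
    nlinarith
  · intro z b hb hz
    have hzS : z ∈ SB k i := hball (lt_of_lt_of_le hz (min_le_left _ _))
    obtain ⟨b', hb', rfl⟩ := (val_SB hzS).1 hb
    have h6 : dist (psi k i z) y < min r (dist x' y) := by
      have h7 : dist z (phi k i y) < e k * min r (dist x' y) := lt_of_lt_of_le hz (min_le_right _ _)
      rw [← dist_psi k i, psi_phi] at h7
      exact lt_of_mul_lt_mul_left h7 he.le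
    have h7 := h4 _ _ hb' (lt_of_lt_of_le h6 (min_le_left _ _))
    have h8 : dist (psi k i z) y < dist x' y := lt_of_lt_of_le h6 (min_le_right _ _)
    have h9 := lam_lip' k i (psi k i z) x'
    rw [phi_psi] at h9
    have h10 : dist (psi k i z) x' ≤ 2 * dist x' y := by
      have := dist_triangle (psi k i z) y x'
      rw [dist_comm y x'] at this
      linarith
    have h11 : lam k i z - lam k i (phi k i x') ≤ 1 / 40 * dist x' y := by
      have := (le_abs_self _).trans h9
      linarith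
    rw [dist_phi]
    linarith

/-- quantitative spikes -/
def E (n : ℕ) (x : ℂ) : Prop := ∃ x' a', Val x' a' ∧ dist x' x ≤ 1 / 4 * (1 / 8 : ℝ) ^ n ∧
  ∃ r > 0, ∀ y b, Val y b → dist y x < r →
    b + (1 / 4 * (1 / 2 : ℝ) ^ n + 1 / 16 * (1 / 8 : ℝ) ^ n) ≤ a'

lemma E_zero {k : ℕ} {i : Fin 3} {x : ℂ} (hx : x ∈ SB k i) : E 0 x := by
  obtain ⟨ρ, hρ, hball⟩ := Metric.isOpen_iff.1 (isOpen_SB k i) _ hx
  refine ⟨top k, _, top_val k, ?_, ρ, hρ, ?_⟩
  · have h1 := top_dist' k hx
    have := e_le k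
    rw [pow_zero]
    linarith
  · intro y b hb hy
    obtain ⟨b', hb', rfl⟩ := (val_SB (hball hy)).1 hb
    have h1 := lam_le (hball hy)
    have h2 := (val_bounds hb').2
    have h3 := top_ge k
    have h4 : (0 : ℝ) < (1 / 2) ^ k := by positivity
    norm_num
    linarith

lemma E_succ {n k : ℕ} {i : Fin 3} {y : ℂ} (hy : y ∈ W) (h : E n y) : E (n + 1) (phi k i y) := by
  have he := e_pos k
  have he1 := e_le k
  obtain ⟨x', a', h1, h3, r, hr, h4⟩ := h
  obtain ⟨ρ, hρ, hball⟩ := Metric.isOpen_iff.1 (isOpen_SB k i) _ (phi_mem_SB (k := k) (i := i) hy)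
  have hp8 : (0 : ℝ) < (1 / 8) ^ n := by positivity
  have hp2 : (0 : ℝ) < (1 / 2) ^ n := by positivity
  refine ⟨phi k i x', lam k i (phi k i x') + a' / 2, Val.sub k i (val_W h1) h1, ?_,
    min ρ (e k * min r (1 / 8 * (1 / 8 : ℝ) ^ n)), by positivity, ?_⟩
  · rw [dist_phi, pow_succ]
    have : e k * dist x' y ≤ 1 / 4096 * (1 / 4 * (1 / 8 : ℝ) ^ n) :=
      mul_le_mul he1 h3 dist_nonneg (by norm_num)
    linarith
  · intro z b hb hz
    have hzS : z ∈ SB k i := hball (lt_of_lt_of_le hz (min_le_left _ _))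
    obtain ⟨b', hb', rfl⟩ := (val_SB hzS).1 hb
    have h6 : dist (psi k i z) y < min r (1 / 8 * (1 / 8 : ℝ) ^ n) := by
      have h7 : dist z (phi k i y) < e k * min r (1 / 8 * (1 / 8 : ℝ) ^ n) :=
        lt_of_lt_of_le hz (min_le_right _ _)
      rw [← dist_psi k i, psi_phi] at h7
      exact lt_of_mul_lt_mul_left h7 he.le
    have h7 := h4 _ _ hb' (lt_of_lt_of_le h6 (min_le_left _ _))
    have h8 : dist (psi k i z) y < 1 / 8 * (1 / 8 : ℝ) ^ n := lt_of_lt_of_le h6 (min_le_right _ _)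
    have h9 := lam_lip' k i (psi k i z) x'
    rw [phi_psi] at h9
    have h10 : dist (psi k i z) x' ≤ 3 / 8 * (1 / 8 : ℝ) ^ n := by
      have := dist_triangle (psi k i z) y x'
      rw [dist_comm y x'] at this
      linarith
    have h11 : lam k i z - lam k i (phi k i x') ≤ 3 / 640 * (1 / 8 : ℝ) ^ n := by
      have := (le_abs_self _).trans h9
      linarith
    rw [pow_succ, pow_succ]
    linarith

lemma peak_of_E {x : ℂ} (hx : ∀ a, ¬ Val x a) (h : ∀ n, E n x) : Peak x := by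
  intro K ε hε
  have h1 : Tendsto (fun n : ℕ => (|K| + 1) * (1 / 4 : ℝ) ^ n) atTop (𝓝 ((|K| + 1) * 0)) :=
    (tendsto_pow_atTop_nhds_zero_of_lt_one (by norm_num) (by norm_num)).const_mul _
  rw [mul_zero] at h1
  obtain ⟨n, hn⟩ := (h1.eventually_lt_const (show (0 : ℝ) < min ε 1 by positivity)).exists
  have hn1 : (|K| + 1) * (1 / 4 : ℝ) ^ n < ε := lt_of_lt_of_le hn (min_le_left _ _)
  have hn2 : (|K| + 1) * (1 / 4 : ℝ) ^ n < 1 := lt_of_lt_of_le hn (min_le_right _ _)
  have hK := abs_nonneg K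
  obtain ⟨x', a', h2, h3, r, hr, h4⟩ := h n
  have p8 : (0 : ℝ) < (1 / 8) ^ n := by positivity
  have p4 : (0 : ℝ) < (1 / 4) ^ n := by positivity
  have p2 : (0 : ℝ) < (1 / 2) ^ n := by positivity
  have h84 : (1 / 8 : ℝ) ^ n ≤ (1 / 4) ^ n := pow_le_pow_left₀ (by norm_num) (by norm_num) n
  have h824 : (1 / 8 : ℝ) ^ n = (1 / 4) ^ n * (1 / 2) ^ n := by rw [← mul_pow]; norm_num
  refine ⟨x', a', h2, ?_, ?_, r, hr, ?_⟩
  · rintro rfl
    exact hx _ h2
  · nlinarith
  · intro y b hb hy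
    have h5 := h4 y b hb hy
    have h6 : K * dist x' x ≤ 1 / 4 * (1 / 2 : ℝ) ^ n := by
      calc K * dist x' x ≤ |K| * (1 / 4 * (1 / 8 : ℝ) ^ n) :=
            mul_le_mul (le_abs_self K) h3 dist_nonneg hK
        _ = (|K| * (1 / 4 : ℝ) ^ n) * (1 / 4 * (1 / 2 : ℝ) ^ n) := by rw [h824]; ring
        _ ≤ 1 * (1 / 4 * (1 / 2 : ℝ) ^ n) := by
            apply mul_le_mul_of_nonneg_right _ (by positivity)
            linarith
        _ = _ := one_mul _
    have : 0 < 1 / 16 * (1 / 8 : ℝ) ^ n := by positivity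
    linarith

/-- the projection of the decorated graph -/
def Y : Set ℂ := {x | ∃ a, Val x a}

/-- a point of the closure of `Y` which is of neither of the two good types -/
def Bad (x : ℂ) : Prop := x ∈ closure Y ∧ ¬ LocConv Val x ∧ ¬ Peak x

lemma bad_step {x : ℂ} (h : Bad x) : ∃ k i y, y ∈ W ∧ Bad y ∧ x = phi k i y := by
  obtain ⟨h1, h2, h3⟩ := h
  have hx : x ≠ 0 := by
    rintro rfl
    exact h3 peak_zero
  by_cases hc : ∃ k i, x ∈ CB k i
  · obtain ⟨k, i, hc⟩ := hc
    have hS := CB_sub k i hc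
    have hW : psi k i x ∈ W := (mem_SB_iff k i x).1 hS
    refine ⟨k, i, psi k i x, hW, ⟨?_, ?_, ?_⟩, (phi_psi k i x).symm⟩
    · have h4 : x ∈ closure (SB k i ∩ Y) :=
        (isOpen_SB k i).inter_closure ⟨hS, h1⟩
      have h5 := mem_closure_image (continuous_psi k i).continuousAt h4
      refine closure_mono ?_ h5
      rintro _ ⟨z, ⟨hzS, a, hz⟩, rfl⟩
      obtain ⟨b, hb, -⟩ := (val_SB hzS).1 hz
      exact ⟨b, hb⟩
    · intro h
      have := locConv_transfer (k := k) (i := i) hW h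
      rw [phi_psi] at this
      exact h2 this
    · intro h
      have := peak_transfer (k := k) (i := i) hW h
      rw [phi_psi] at this
      exact h3 this
  · push Not at hc
    exact absurd (locConv_of_base hx hc) h2

lemma E_of_bad (n : ℕ) : ∀ x, Bad x → E n x := by
  induction n with
  | zero =>
    intro x hx
    obtain ⟨k, i, y, hy, -, rfl⟩ := bad_step hx
    exact E_zero (phi_mem_SB hy)
  | succ n ih =>
    intro x hx
    obtain ⟨k, i, y, hy, hyb, rfl⟩ := bad_step hx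
    exact E_succ hy (ih y hyb)

/-- **Dichotomy.** -/
theorem dichotomy {x : ℂ} (h : x ∈ closure Y) : LocConv Val x ∨ (x ∉ Y ∧ Peak x) := by
  by_cases h1 : LocConv Val x
  · exact Or.inl h1
  · right
    have h2 : x ∉ Y := by
      rintro ⟨a, ha⟩
      exact h1 (locConv_of_val ha)
    refine ⟨h2, ?_⟩
    by_contra h3
    exact h3 (peak_of_E (fun a ha => h2 ⟨a, ha⟩) fun n => E_of_bad n x ⟨h, h1, h3⟩)

end Pool.Agent.TH233.LS
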